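import Mathlib
import Pool.Agent.Lib.Helper28.Split.Defs
import Pool.Agent.Lib.Helper28.Split.Main

/-!
# Splitting methods of all orders with all coefficients of positive real part

For every `N` there is a nonempty list of pairs `(αⱼ, βⱼ)`, all of positive real part, which is
a splitting method of order at least `N` (full affirmative answer to Q1).

Idea of the proof. In the truncated free associative algebra on `X₀`, `X₁` (words of length at most
`N`), let `S` be the semigroup of finite products of exponentials `exp (c Xᵢ)` with `Re c > 0`.
Words with purely imaginary coefficients form a subgroup; together with a leading-term analysis of
the filtered group generated by all exponentials (its graded pieces are the homogeneous parts of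
the free Lie algebra) this subgroup contains all elements of degree at least two, because
`ad` of an imaginary multiple can be repeated and real multiples of brackets with both signs are
obtained from commutators. Hence every group element whose linear part lies in the right half-plane
is a product with coefficients in the closed half-plane, and an inverse-function/perturbation
argument moves the coefficients into the open half-plane at the cost of enlarging the linear part.
In particular `exp (c (X₀ + X₁))` is such a product for some real `c > 0`, and rescaling gives the
method.
-/

open Pool.Agent.Lib.Helper28.Split

namespace Pool.Agent.Results.MP_18dddc_an.AllOrders

/-- **Splitting methods of every order with coefficients in the open right half-plane.**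
For every `N` there are `k ≥ 1` and `α₁, …, αₖ, β₁, …, βₖ` of positive real part which form a
splitting method of order at least `N`. -/
theorem result (N : ℕ) : ∃ ps : List (ℂ × ℂ), ps ≠ [] ∧
    (∀ p ∈ ps, 0 < p.1.re ∧ 0 < p.2.re) ∧ HasOrder N ps :=
  exists_hasOrder N

end Pool.Agent.Results.MP_18dddc_an.AllOrders
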